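import Pool.Agent.RIG.Final

set_option autoImplicit false

/-!
# The enumeration degrees are rigid

Every automorphism of the partial order of the enumeration degrees is the identity
(MP_431ff4_lc, Q1, answered positively and in full).

Outline of the proof (all of it in `Pool/Agent/RIG`).
Let `φ` be an automorphism, given on representatives; fix a nonempty set `A`. Points are triples
`x = (v, y, r)`, `v` a sequence in `A`, `y`, `r` sequences of integers; parameters are sequences
of integers. Baire category is used throughout, `φ` itself is arbitrary (not assumed to be Borel).
1. Names: with an independent sequence `G_n` over `φ(A)` every set `Y` in `φ(deg x)`, `x` outside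
   of a meager set, is `{n | D_n ≤_e W(x ⊕ D)}` for one of countably many operators `W`, with
   fixed sets `D`, `D_n`: countably many Baire measurable functions give all true names.
2. Uniformisation and group chunk: for the actions of the parameter group (`r + p`,
   `y + p · γ_v(r)`) the name of `p - p'` acting on `x` is computed by one enumeration operator
   from the name of `x` and true names of two independent generic parameters `p`, `p'`.
3. Edge: some bit of the name depends on some single entry of `y`.
4. Iterating the first action moves a register `r_i` to all places, the second action writes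
   `γ_v` of the register into the entry of `y`, the edge makes it visible: `A ≤_e φ(deg z)` for
   nonmeager many `z`, so `φ⁻¹(deg A) ≤ deg z`, and genericity gives `φ⁻¹(deg A) ≤ deg A`.
The same for the inverse automorphism.
-/

namespace Pool.Agent.Results.MP_431ff4_lc.Rigidity

/-- Enumeration reducibility `A ≤_e B`: there is a c.e. set `W` such that `x ∈ A` iff
`⟨x, code D⟩ ∈ W` for some finite set `D ⊆ B`. Finite sets are given by their canonical indices:
`u` is the code of the set of all `y` such that the binary digit of `u` at place `y` is one. -/
def EnumReducible (A B : Set ℕ) : Prop :=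
  ∃ W : Set ℕ, REPred (fun n : ℕ => n ∈ W) ∧
    ∀ x : ℕ, x ∈ A ↔ ∃ u : ℕ, (∀ y : ℕ, u.testBit y = true → y ∈ B) ∧ Nat.pair x u ∈ W

theorem EnumReducible.rfl' (A : Set ℕ) : EnumReducible A A := Pool.Agent.RIG.f_LAT.refl A

theorem EnumReducible.trans' {A B C : Set ℕ} (h1 : EnumReducible A B) (h2 : EnumReducible B C) :
    EnumReducible A C := Pool.Agent.RIG.f_LAT.trans h1 h2

/-- Enumeration equivalence `A ≡_e B`. -/
def enumSetoid : Setoid (Set ℕ) where
  r A B := EnumReducible A B ∧ EnumReducible B A
  iseqv := ⟨fun A => ⟨.rfl' A, .rfl' A⟩, fun h => ⟨h.2, h.1⟩,
    fun h h' => ⟨h.1.trans' h'.1, h'.2.trans' h.2⟩⟩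

/-- The enumeration degrees: equivalence classes of sets of natural numbers under `≡_e`. -/
def EnumDegree : Type := Quotient enumSetoid

/-- The degree of a set. -/
def EnumDegree.deg (A : Set ℕ) : EnumDegree := Quotient.mk enumSetoid A

/-- The partial order of the degrees, induced by enumeration reducibility. -/
instance : PartialOrder EnumDegree where
  le := Quotient.lift₂ (s₁ := enumSetoid) (s₂ := enumSetoid) EnumReducible (by
    intro A B C D h1 h2
    exact propext ⟨fun h => h1.2.trans' (h.trans' h2.1), fun h => h1.1.trans' (h.trans' h2.2)⟩)
  le_refl := by
    intro a
    induction a using Quotient.ind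
    exact EnumReducible.rfl' _
  le_trans := by
    intro a b c
    induction a using Quotient.ind
    induction b using Quotient.ind
    induction c using Quotient.ind
    exact fun h h' => EnumReducible.trans' h h'
  le_antisymm := by
    intro a b
    induction a using Quotient.ind
    induction b using Quotient.ind
    exact fun h h' => Quotient.sound ⟨h, h'⟩

theorem EnumDegree.deg_le (A B : Set ℕ) :
    EnumDegree.deg A ≤ EnumDegree.deg B ↔ EnumReducible A B := Iff.rfl

theorem EnumDegree.deg_surjective : Function.Surjective EnumDegree.deg := Quotient.mk_surjective

/-- **The enumeration degrees are rigid**: every automorphism of the partial order of the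
enumeration degrees is the identity. -/
theorem result (φ : EnumDegree ≃o EnumDegree) (a : EnumDegree) : φ a = a :=
  Pool.Agent.RIG.rigid_of_fin Pool.Agent.RIG.f_FIN EnumDegree.deg EnumDegree.deg_surjective
    (fun A B => EnumDegree.deg_le A B) φ a

end Pool.Agent.Results.MP_431ff4_lc.Rigidity
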